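import Pool.Agent.MP_92c74b_an.Cv.MB

set_option autoImplicit false

open MeasureTheory
open scoped ContDiff

namespace Pool.Agent.Results.MP_92c74b_an.Convex

/-- The Dirichlet eigenvalue `ν_j(Ω)` (indexing from `0`) by the min-max principle: the infimum,
over the subspaces `V` of dimension `j + 1` of `C_c^∞(Ω)`, of the supremum of the Rayleigh
quotient on the nonzero elements of `V`. -/
noncomputable def nu {n : ℕ} (Ω : Set (EuclideanSpace ℝ (Fin n))) (j : ℕ) : ℝ :=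
  sInf ((fun V : Submodule ℝ (EuclideanSpace ℝ (Fin n) → ℝ) =>
      sSup ((fun f : EuclideanSpace ℝ (Fin n) → ℝ =>
        (∫ x, ‖fderiv ℝ f x‖ ^ 2) / (∫ x, f x ^ 2)) '' {f | f ∈ V ∧ f ≠ 0})) ''
    {V : Submodule ℝ (EuclideanSpace ℝ (Fin n) → ℝ) | Module.finrank ℝ V = j + 1 ∧
      ∀ f ∈ V, ContDiff ℝ ∞ f ∧ HasCompactSupport f ∧ tsupport f ⊆ Ω})

/-- On bounded convex domains in `ℝⁿ` the multiplicity of `ν_k` is at most `C(n) (k + 1)`. -/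
theorem result (n : ℕ) (hn : 1 ≤ n) :
    ∃ C : ℕ, ∀ Ω : Set (EuclideanSpace ℝ (Fin n)), IsOpen Ω → Convex ℝ Ω →
      Bornology.IsBounded Ω → Ω.Nonempty → ∀ k : ℕ,
        9 / 8 * (nu Ω k - nu Ω 0) ≤ nu Ω (C * (k + 1)) - nu Ω 0 ∧
        ∀ S : Finset ℕ, (∀ j ∈ S, nu Ω j = nu Ω k) → S.card ≤ C * (k + 1) := by
  obtain ⟨C, hC⟩ := Pool.Agent.MP_92c74b_an.Cv.main_cv (n := n) hn
  exact ⟨C, fun Ω h1 h2 h3 h4 k => hC Ω ⟨h1, h2, h3, h4⟩ k⟩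

end Pool.Agent.Results.MP_92c74b_an.Convex
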