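import Pool.Agent.Mg.F92c74b.Ge06351

set_option autoImplicit false

open MeasureTheory
open scoped ContDiff

namespace Pool.Agent.Results.MP_92c74b_an.Unbounded4

/-- The Dirichlet eigenvalue `ν_j(Ω)` (indexing from `0`) by the min-max principle: the infimum,
over the subspaces `V` of dimension `j + 1` of `C_c^∞(Ω)`, of the supremum of the Rayleigh
quotient on the nonzero elements of `V`. -/
noncomputable def nu {n : ℕ} (Ω : Set (EuclideanSpace ℝ (Fin n))) (j : ℕ) : ℝ :=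
  sInf ((fun V : Submodule ℝ (EuclideanSpace ℝ (Fin n) → ℝ) =>
      sSup ((fun f : EuclideanSpace ℝ (Fin n) → ℝ =>
        (∫ x, ‖fderiv ℝ f x‖ ^ 2) / (∫ x, f x ^ 2)) '' {f | f ∈ V ∧ f ≠ 0})) ''
    {V : Submodule ℝ (EuclideanSpace ℝ (Fin n) → ℝ) | Module.finrank ℝ V = j + 1 ∧
      ∀ f ∈ V, ContDiff ℝ ∞ f ∧ HasCompactSupport f ∧ tsupport f ⊆ Ω})

/-- For every `N` there is a domain in `ℝ⁴` with `ν_1 = ν_2 = ⋯ = ν_N`. -/
theorem result (N : ℕ) :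
    ∃ Ω : Set (EuclideanSpace ℝ (Fin 4)), IsOpen Ω ∧ IsConnected Ω ∧ Bornology.IsBounded Ω ∧
      ∀ j : ℕ, 1 ≤ j → j ≤ N → nu Ω j = nu Ω 1 := by
  obtain ⟨S⟩ := Pool.Agent.MP_92c74b_an.exists_setup (N + 1)
  obtain ⟨Ω, h1, h2, h3, h4⟩ := S.reduction
  refine ⟨Ω, h1, h2, h3, fun j hj hN => ?_⟩
  exact (h4 (j + 1) (by omega) (by omega)).trans (h4 2 le_rfl (by omega)).symm

end Pool.Agent.Results.MP_92c74b_an.Unbounded4
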